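import Pool.Agent.H523.AH.Stm3

set_option autoImplicit false
set_option linter.unusedSectionVars false

/-! # The Alternative Hypothesis: counting the bad points (task C1 of helper523; helper181) -/

namespace Pool.Agent.H181.AHC1

open Finset Pool.Agent.H523.AH

open scoped Classical

theorem countP_eq (l : List ℂ) (p : ℂ → Prop) :
    ((l : Multiset ℂ).countP p : ℝ) = ∑ k : Fin l.length, (if p (l.get k) then (1:ℝ) else 0) := by
  have hval : (l : Multiset ℂ) = (Finset.univ : Finset (Fin l.length)).val.map l.get := by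
    rw [Fin.univ_val_map, List.ofFn_get]
  have h : (l : Multiset ℂ).countP p = ∑ k : Fin l.length, (if p (l.get k) then 1 else 0) := by
    conv_lhs => rw [hval]
    rw [Multiset.countP_map, ← Finset.filter_val, Finset.card_val, Finset.card_filter]
  rw [h]
  push_cast
  rfl

theorem sum_eq (l : List ℂ) (f : ℂ → ℝ) :
    ((l : Multiset ℂ).map f).sum = ∑ k : Fin l.length, f (l.get k) := by
  have hval : (l : Multiset ℂ) = (Finset.univ : Finset (Fin l.length)).val.map l.get := by
    rw [Fin.univ_val_map, List.ofFn_get]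
  conv_lhs => rw [hval]
  rw [Multiset.map_map]
  rfl

theorem off_eq (l : List ℂ) (c R : ℝ) (d : ℕ) :
    (offPairs c R d (l : Multiset ℂ) : ℝ) = ∑ j : Fin l.length, ∑ k : Fin l.length,
      (if Off c R d (Complex.arg (l.get j / l.get k)) then (1:ℝ) else 0) := by
  have h : (offPairs c R d (l : Multiset ℂ) : ℝ) =
      ((l : Multiset ℂ).map (fun u => ((l : Multiset ℂ).countP
        (fun v => Off c R d (Complex.arg (u / v))) : ℝ))).sum := by
    unfold offPairs
    rw [Nat.cast_multiset_sum, Multiset.map_map]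
    rfl
  rw [h, sum_eq]
  exact sum_congr rfl fun j _ => countP_eq l _

theorem am {x t : ℝ} (ht : 0 < t) : x ≤ t + x ^ 2 / (4 * t) := by
  have h : t + x ^ 2 / (4 * t) - x = (x - 2 * t) ^ 2 / (4 * t) := by
    field_simp
    ring
  have h2 : 0 ≤ (x - 2 * t) ^ 2 / (4 * t) := by positivity
  linarith

/-- **C1.** -/
theorem main : S_C1 := by
  intro hQ4 Z d c R ε hd hZ hε hε4 hc hcR hRd t s ht hs
  obtain ⟨l, rfl⟩ : ∃ l : List ℂ, (l : Multiset ℂ) = Z := Quot.exists_rep Z
  have hnear : ∀ u, (near R d (l : Multiset ℂ) u : ℝ) = ∑ k : Fin l.length,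
      (if |d * Complex.arg (u / l.get k) / (2 * Real.pi)| ≤ R then (1:ℝ) else 0) := by
    intro u
    exact countP_eq l _
  have hnsq : nsq R d (l : Multiset ℂ) = ∑ k : Fin l.length, (near R d (l : Multiset ℂ) (l.get k) : ℝ) ^ 2 :=
    sum_eq l _
  have hmem : ∀ j : Fin l.length, l.get j ∈ (l : Multiset ℂ) := fun j => by
    rw [Multiset.mem_coe]
    exact List.get_mem l j
  set NR : ℂ → ℝ := fun u => (near R d (l : Multiset ℂ) u : ℝ) with hNR
  have hNR0 : ∀ u, 0 ≤ NR u := fun u => Nat.cast_nonneg _
  -- the points with an off partner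
  set A : Fin l.length → Prop := fun j => ∃ v ∈ (l : Multiset ℂ), Off c R d (Complex.arg (l.get j / v)) with hA
  set a : ℝ := ∑ j : Fin l.length, (if A j then (1:ℝ) else 0) with ha
  -- step 1
  have h1 : (offPairs c R d (l : Multiset ℂ) : ℝ) ≤ t * a + nsq R d (l : Multiset ℂ) / (4 * t) := by
    rw [off_eq, hnsq, ha, mul_sum, sum_div, ← sum_add_distrib]
    refine sum_le_sum fun j _ => ?_
    by_cases hj : A j
    · rw [if_pos hj, mul_one]
      refine le_trans ?_ (am ht)
      rw [hnear]
      refine sum_le_sum fun k _ => ?_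
      by_cases ho : Off c R d (Complex.arg (l.get j / l.get k))
      · rw [if_pos ho, if_pos ho.1]
      · rw [if_neg ho]
        split_ifs
        · exact zero_le_one
        · exact le_rfl
    · have h2 : ∑ k : Fin l.length, (if Off c R d (Complex.arg (l.get j / l.get k)) then (1:ℝ) else 0) = 0 := by
        refine sum_eq_zero fun k _ => ?_
        rw [if_neg]
        intro ho
        exact hj ⟨_, hmem k, ho⟩
      rw [h2, if_neg hj, mul_zero, zero_add]
      positivity
  -- step 2
  have h2 : a ≤ s * ((l : Multiset ℂ).countP (fun w => Bad ε R d (l : Multiset ℂ) w) : ℝ) +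
      nsq R d (l : Multiset ℂ) / (4 * s) := by
    have h3 : a ≤ ∑ j : Fin l.length, ∑ k : Fin l.length,
        (if Bad ε R d (l : Multiset ℂ) (l.get k) then (1:ℝ) else 0) *
          (if |d * Complex.arg (l.get k / l.get j) / (2 * Real.pi)| ≤ R then (1:ℝ) else 0) := by
      rw [ha]
      refine sum_le_sum fun j _ => ?_
      have hpos : ∀ k : Fin l.length, 0 ≤ (if Bad ε R d (l : Multiset ℂ) (l.get k) then (1:ℝ) else 0) *
          (if |d * Complex.arg (l.get k / l.get j) / (2 * Real.pi)| ≤ R then (1:ℝ) else 0) := by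
        intro k
        apply mul_nonneg
        · split_ifs
          · exact zero_le_one
          · exact le_rfl
        · split_ifs
          · exact zero_le_one
          · exact le_rfl
      by_cases hj : A j
      · rw [if_pos hj]
        obtain ⟨w, hw, hbad, hwR⟩ := hQ4 (l : Multiset ℂ) d c R ε hd hZ hε hε4 hc hcR hRd (l.get j) (hmem j) hj
        rw [Multiset.mem_coe] at hw
        obtain ⟨k, hk⟩ := List.get_of_mem hw
        refine le_trans ?_ (single_le_sum (fun k _ => hpos k) (mem_univ k))
        rw [hk, if_pos hbad, if_pos hwR, mul_one]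
      · rw [if_neg hj]
        exact sum_nonneg fun k _ => hpos k
    refine h3.trans ?_
    rw [sum_comm, countP_eq, hnsq, mul_sum, sum_div, ← sum_add_distrib]
    refine sum_le_sum fun k _ => ?_
    rw [← mul_sum, ← hnear]
    by_cases hb : Bad ε R d (l : Multiset ℂ) (l.get k)
    · rw [if_pos hb, one_mul, mul_one]
      exact am hs
    · rw [if_neg hb, zero_mul, mul_zero, zero_add]
      positivity
  -- combination
  have h4 := mul_le_mul_of_nonneg_left h2 ht.le
  have h5 : t * s * ((l : Multiset ℂ).countP (fun w => Bad ε R d (l : Multiset ℂ) w) : ℝ) +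
      (t / (4 * s) + 1 / (4 * t)) * nsq R d (l : Multiset ℂ) =
      t * (s * ((l : Multiset ℂ).countP (fun w => Bad ε R d (l : Multiset ℂ) w) : ℝ) +
      nsq R d (l : Multiset ℂ) / (4 * s)) + nsq R d (l : Multiset ℂ) / (4 * t) := by
    field_simp
    ring
  rw [h5]
  linarith

end Pool.Agent.H181.AHC1
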